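import Pool.Agent.RGC.Fin
import Pool.Agent.PWJ.Fin2

/-!
# MP_41330a_gt: almost all covers with a given deck group

For every finite group `G` the fraction of homomorphisms `ρ : Pi1 g n → G` which are not `Tame ρ k` is at
most `2 (k + 2) |G|^3 / (2^m - 1)`, for every `m` with `(k + 2)(2 m + 1) ≤ g`: it is small as soon as `g` is
at least a constant times `log |G|`.
-/

namespace Pool.Agent.Results.MP_41330a_gt.AlmostAllCovers

open Pool.Agent.PWI

/-- For every normal finite index subgroup `M` of `Pi1 g n` joined to the kernel of `ρ` by a chain of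
subgroups of cost `k` and every finite index subgroup `H` of the mapping class group which contains the point
pushes along the commutators of `M`, every homomorphism `H → Z` is trivial on all point pushes in `H`. -/
def Tame {G : Type} [Group G] {g n : ℕ} (ρ : Pi1 g n →* G) (k : ℕ) : Prop :=
  ∀ M : Subgroup (Pi1 g n), M.Normal → M.FiniteIndex → ChainCost ρ.ker M k →
    ∀ H : Subgroup (Mcg g n), H.FiniteIndex →
      (∀ x ∈ M, ∀ y ∈ M, pushPt (x * y * x⁻¹ * y⁻¹) ∈ H) →
      ∀ (f : H →* Multiplicative ℤ) (x : Pi1 g n) (hx : pushPt x ∈ H), f ⟨pushPt x, hx⟩ = 1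

theorem result {G : Type} [Group G] [Finite G] (g n m k : ℕ) (h : (k + 2) * (2 * m + 1) ≤ g) :
    Nat.card {ρ : Pi1 g n →* G // ¬ Tame ρ k} * (2 ^ m - 1) ≤
      2 * (k + 2) * Nat.card G ^ 3 * Nat.card (Pi1 g n →* G) := by
  rcases Nat.eq_zero_or_pos m with rfl | hm
  · simp
  have hg : 3 ≤ g := by nlinarith
  refine le_trans (Nat.mul_le_mul_right _ ?_) (Pool.Agent.RGC.count_bad g n m (k + 2) h)
  have hfin : Finite (Pi1 g n →* G) := Pool.Agent.RGC.hom_finite g n G
  refine Nat.card_le_card_of_injective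
    (fun ρ : {ρ : Pi1 g n →* G // ¬ Tame ρ k} =>
      (⟨ρ.1, fun hh => ρ.2 ?_⟩ : {ρ : Pi1 g n →* G // ¬ HasHandles ρ.ker (k + 2)})) ?_
  · intro M hM1 hM2 hM3 H hH hc f x hx
    exact Pool.Agent.PWI.main2 g n hg H M ρ.1.ker k (by nlinarith) hM3 hh hc f x hx
  · intro ρ ρ' hρ
    exact Subtype.ext (congrArg (fun x : {ρ : Pi1 g n →* G // ¬ HasHandles ρ.ker (k + 2)} => x.1) hρ)

end Pool.Agent.Results.MP_41330a_gt.AlmostAllCovers
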