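import Pool.Agent.PWI.State

/-!
Let `g ≥ 3`, `n ≥ 0`, let `H` be a finite index subgroup of the pure mapping class group
`Mcg g n` (pure mapping classes of the genus `g` surface with `n + 1` punctures, acting on the
fundamental group `Pi1 g n` of the surface with `n` punctures), and let `M` be a normal subgroup of
finite index of `Pi1 g n` such that `H` contains the point pushes along all commutators of
elements of `M`.  Suppose that for some `k ≤ g - 2` the group `M` is joined by a series of length
`k` with cyclic quotients to a subgroup `P` containing the first `k + 2` handles up to a mapping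
class (for `k = g - 2` one can take the whole group for `P`).  Then every homomorphism from `H` to
the integers vanishes on all point pushes in `H`.
-/

namespace Pool.Agent.Results.MP_41330a_gt.PointPushCyclicSeries

open Pool.Agent.PWI

theorem result (g n : ℕ) (hg : 3 ≤ g) (H : Subgroup (Mcg g n)) [H.FiniteIndex]
    (M P : Subgroup (Pi1 g n)) [M.Normal] [M.FiniteIndex] (k : ℕ) (hk : k + 2 ≤ g)
    (hP : HasHandles P (k + 2)) (hM : CycSeries M P k)
    (hH : ∀ x ∈ M, ∀ y ∈ M, pushPt (x * y * x⁻¹ * y⁻¹) ∈ H)
    (f : H →* Multiplicative ℤ) (x : Pi1 g n) (hx : pushPt x ∈ H) : f ⟨pushPt x, hx⟩ = 1 :=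
  main g n hg H M P k hk hP hM hH f x hx

end Pool.Agent.Results.MP_41330a_gt.PointPushCyclicSeries
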