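import Pool.Agent.RGD.Main

/-!
# MP_41330a_gt: almost all covers with a given transitive monodromy action

Let a finite group `G` act transitively on `d` points.  For every `m` with `(k + 2)(2 m + 1) ≤ g` the fraction of
homomorphisms `ρ : Pi1 g n → G` which are not `Good θ k` is at most `(6 d^2 + 2 (k + 2) d) / (2^m - 1)` if
`n ≥ 1` and `|G|^2` times this number if `n = 0`: for `n ≥ 1` it is small as soon as `g` is at least a constant
times `log d`.
-/

namespace Pool.Agent.Results.MP_41330a_gt.TransitiveCovers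

open Pool.Agent.PWI Pool.Agent.RGD

theorem result {G : Type} [Group G] [Finite G] (d : ℕ) (θ : G →* Equiv.Perm (Fin d))
    (hθ : ∀ i j : Fin d, ∃ s : G, θ s i = j) (g n m k : ℕ) (h : (k + 2) * (2 * m + 1) ≤ g) :
    Nat.card {ρ : Pi1 g n →* G // ¬ Good θ k ρ} * (2 ^ m - 1) ≤
      (6 * d ^ 2 + 2 * (k + 2) * d) * (if n = 0 then Nat.card G ^ 2 else 1) *
        Nat.card (Pi1 g n →* G) :=
  Pool.Agent.RGD.count_good θ hθ g n m k h

end Pool.Agent.Results.MP_41330a_gt.TransitiveCovers
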